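import Mathlib
import Pool.Agent.Helper639.ForceCH
import Pool.Agent.R820.GSet

set_option autoImplicit false

namespace Pool.Agent.Results.MP_dfc365_gt.ConsistentExample

open Pool.Agent.Helper639.ForceCH (OmegaOnePreserved CHHolds)

/-- `C_p(Z)`: the continuous real-valued functions on `Z`, as a subspace of the product `ℝ ^ Z`
(the topology of pointwise convergence). -/
abbrev Cp (Z : Type) [TopologicalSpace Z] : Type := {f : Z → ℝ // Continuous f}

/-- Every subspace of `Y` is separable. -/
def HereditarilySeparable (Y : Type) [TopologicalSpace Y] : Prop :=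
  ∀ S : Set Y, TopologicalSpace.SeparableSpace S

/-- Some forcing notion forces that `ω₁` is preserved and CH holds, and CH implies that there is a
Tychonoff space `X` such that `C_p(X)` is separable and Frechet-Urysohn, but not hereditarily
separable. -/
theorem result :
    (∃ (P : Type) (_ : Preorder P), Nonempty P ∧
      ∀ p : P, p ∈ OmegaOnePreserved P ∧ p ∈ CHHolds P) ∧
    (Cardinal.aleph.{0} 1 = Cardinal.continuum →
      ∃ (X : Type) (_ : TopologicalSpace X), T35Space X ∧
        TopologicalSpace.SeparableSpace (Cp X) ∧ FrechetUrysohnSpace (Cp X) ∧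
        ¬ HereditarilySeparable (Cp X)) := by
  refine ⟨?_, fun hCH => Pool.Agent.R820.GSet.main hCH⟩
  obtain ⟨P, i, hn, h⟩ := Pool.Agent.Helper639.ForceCH.exists_forcing
  exact ⟨P, i, hn, fun p => ⟨(h p).1, (h p).2.2⟩⟩

end Pool.Agent.Results.MP_dfc365_gt.ConsistentExample
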